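import Pool.Agent.helper94.SCT.Spec

set_option autoImplicit false

namespace Pool.Agent.SCT

open Finset ArithmeticFunction MeasureTheory
open Pool.Agent.CH (nit eU)
open Pool.Agent.helper78.ED (wg SS)
open Pool.Agent.helper85.BVP (beta)

private theorem FAR_set (φ : ℝ → ℝ) (δ' : ℝ) (hδ : 0 < δ') (N₀ : ℝ)
    (hbox : ∀ N t a : ℝ, N₀ ≤ N → 2 * N ^ δ' ≤ t → t ≤ N ^ 4 → 0 ≤ a → a ≤ 1 / 2 → t ∉ Bad a (N ^ δ') →
      ‖DL φ N t‖ ≤ N ^ (1 - a + δ')) (η C : ℝ) (hC : 0 < C)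
    (hmes : ∀ T H a : ℝ, 1 ≤ H → H ≤ T → 0 ≤ a → a ≤ 1 / 2 →
      MeasurableSet (Bad a H ∩ Set.Icc (2 * H) T) ∧
      volume (Bad a H ∩ Set.Icc (2 * H) T) ≤ ENNReal.ofReal (C * H * T ^ (9 / 4 * a + η)))
    (N T a : ℝ) (hN : N₀ ≤ N) (hN1 : 1 ≤ N) (hT : 1 ≤ T) (hTN : T ≤ N ^ 4) (ha : 0 ≤ a) (ha' : a ≤ 1 / 2) :
    ∃ S : Set ℝ, MeasurableSet S ∧
      volume S ≤ ENNReal.ofReal (2 * N ^ δ' + C * N ^ δ' * T ^ (9 / 4 * a + η)) ∧
      ∀ t ∈ Set.Icc 0 T, t ∉ S → ‖DL φ N t‖ ≤ N ^ (1 - a + δ') := by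
  have hT0 : 0 < T := by linarith
  have hH : 1 ≤ N ^ δ' := Real.one_le_rpow hN1 hδ.le
  have hH0 : 0 < N ^ δ' := by linarith
  have hTp : 0 < T ^ (9 / 4 * a + η) := Real.rpow_pos_of_pos hT0 _
  by_cases hHT : N ^ δ' ≤ T
  · obtain ⟨h1, h2⟩ := hmes T (N ^ δ') a hH hHT ha ha'
    refine ⟨Set.Icc 0 (2 * N ^ δ') ∪ (Bad a (N ^ δ') ∩ Set.Icc (2 * N ^ δ') T), measurableSet_Icc.union h1, ?_, ?_⟩
    · refine (measure_union_le _ _).trans ?_
      rw [ENNReal.ofReal_add (by positivity) (by positivity)]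
      refine add_le_add ?_ h2
      rw [Real.volume_Icc, sub_zero]
    · intro t ht htS
      have ht1 : 2 * N ^ δ' ≤ t := by
        by_contra hc
        exact htS (Or.inl ⟨ht.1, (not_le.1 hc).le⟩)
      exact hbox N t a hN ht1 (ht.2.trans hTN) ha ha' (fun hb => htS (Or.inr ⟨hb, ht1, ht.2⟩))
  · refine ⟨Set.Icc 0 (2 * N ^ δ'), measurableSet_Icc, ?_, ?_⟩
    · rw [Real.volume_Icc, sub_zero]
      exact ENNReal.ofReal_le_ofReal (le_add_of_nonneg_right (by positivity))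
    · intro t ht htS
      exact absurd ⟨ht.1, ht.2.trans (by linarith [not_le.1 hHT])⟩ htS

private theorem FAR_arith (x κ C H T T' a : ℝ) (hx : 1 ≤ x) (hκ : 0 < κ) (hκ' : κ ≤ 1 / 2) (hC : 0 < C) (hH : 0 ≤ H)
    (hHx : H ≤ x ^ (κ / 4)) (hT : 1 ≤ T) (hTx : T ≤ x ^ (4 / 3 : ℝ)) (hT' : 1 ≤ T') (hTT : T' ≤ 2 * T) (ha : 0 ≤ a)
    (ha' : a ≤ 1 / 2) (hbig : 2 + 4 * C ≤ x ^ (5 * κ / 12)) :
    2 * H + C * H * T' ^ (9 / 4 * a + κ / 4) ≤ x ^ κ * T ^ (9 / 4 * a) := by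
  have hx0 : 0 < x := by linarith
  have hT0 : 0 < T := by linarith
  have hT'0 : 0 < T' := by linarith
  have he : 0 ≤ 9 / 4 * a + κ / 4 := by positivity
  have h1 : T' ^ (9 / 4 * a + κ / 4) ≤ 4 * (T ^ (9 / 4 * a) * x ^ (κ / 3)) := by
    calc T' ^ (9 / 4 * a + κ / 4) ≤ (2 * T) ^ (9 / 4 * a + κ / 4) := Real.rpow_le_rpow hT'0.le hTT he
      _ = 2 ^ (9 / 4 * a + κ / 4) * T ^ (9 / 4 * a + κ / 4) := Real.mul_rpow (by norm_num) hT0.le
      _ ≤ 2 ^ (2 : ℝ) * T ^ (9 / 4 * a + κ / 4) := by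
          refine mul_le_mul_of_nonneg_right ?_ (Real.rpow_nonneg hT0.le _)
          exact Real.rpow_le_rpow_of_exponent_le (by norm_num) (by linarith)
      _ = 4 * (T ^ (9 / 4 * a) * T ^ (κ / 4)) := by
          rw [Real.rpow_add hT0]
          norm_num
      _ ≤ 4 * (T ^ (9 / 4 * a) * x ^ (κ / 3)) := by
          refine mul_le_mul_of_nonneg_left ?_ (by norm_num)
          refine mul_le_mul_of_nonneg_left ?_ (Real.rpow_nonneg hT0.le _)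
          calc T ^ (κ / 4) ≤ (x ^ (4 / 3 : ℝ)) ^ (κ / 4) := Real.rpow_le_rpow hT0.le hTx (by positivity)
            _ = x ^ (κ / 3) := by
              rw [← Real.rpow_mul hx0.le]
              congr 1
              ring
  have hA : 1 ≤ T ^ (9 / 4 * a) := Real.one_le_rpow hT (by positivity)
  have hB : 1 ≤ x ^ (κ / 3) := Real.one_le_rpow hx (by positivity)
  have hD : 0 < x ^ (κ / 4) := Real.rpow_pos_of_pos hx0 _
  have hAB : 1 ≤ T ^ (9 / 4 * a) * x ^ (κ / 3) := by nlinarith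
  set A := T ^ (9 / 4 * a)
  set B := x ^ (κ / 3)
  set D := x ^ (κ / 4)
  have hAB0 : 0 ≤ A * B := by linarith
  have h2 : 2 * H ≤ 2 * D * (A * B) := by
    calc 2 * H ≤ 2 * D * 1 := by linarith
      _ ≤ 2 * D * (A * B) := mul_le_mul_of_nonneg_left hAB (by linarith)
  have h3 : C * H * T' ^ (9 / 4 * a + κ / 4) ≤ C * D * (4 * (A * B)) := by
    refine mul_le_mul (mul_le_mul_of_nonneg_left hHx hC.le) h1 (Real.rpow_nonneg hT'0.le _) (by positivity)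
  have h4 : x ^ κ = D * B * x ^ (5 * κ / 12) := by
    change x ^ κ = x ^ (κ / 4) * x ^ (κ / 3) * x ^ (5 * κ / 12)
    rw [← Real.rpow_add hx0, ← Real.rpow_add hx0]
    congr 1
    ring
  calc 2 * H + C * H * T' ^ (9 / 4 * a + κ / 4) ≤ 2 * D * (A * B) + C * D * (4 * (A * B)) := add_le_add h2 h3
    _ = (D * B) * A * (2 + 4 * C) := by ring
    _ ≤ (D * B) * A * x ^ (5 * κ / 12) := mul_le_mul_of_nonneg_left hbig (by positivity)
    _ = x ^ κ * A := by rw [h4]; ring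

theorem FAR (hTRV : TRV_stmt) (hBOX : BOX_stmt) (hMES : MES_stmt) (hLVL : LVL_stmt) : FAR_stmt := by
  intro φ g hφ hg ε δ hε hε1 hδ
  obtain ⟨κ, x₁, hκ, hκ2, hL⟩ := hLVL ε δ hε hε1 hδ
  set δ' : ℝ := min (κ / 8) (1 / 10) with hδ'
  have hδ0 : 0 < δ' := lt_min (by positivity) (by norm_num)
  have hδ1 : δ' ≤ κ / 8 := min_le_left _ _
  have hδ2 : δ' ≤ 1 / 10 := min_le_right _ _
  obtain ⟨_, hgc, Cg, hCg, hgb⟩ := hTRV g hg
  obtain ⟨_, hφc, Cφ, hCφ, hφb⟩ := hTRV φ hφ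
  obtain ⟨Ng, hNg⟩ := hBOX g hg δ' hδ0 hδ2
  obtain ⟨Nφ, hNφ⟩ := hBOX φ hφ δ' hδ0 hδ2
  obtain ⟨C, hC, hM⟩ := hMES (κ / 4) (by positivity)
  -- the threshold
  have hcast : Filter.Tendsto (fun x : ℕ => (x : ℝ)) Filter.atTop Filter.atTop := tendsto_natCast_atTop_atTop
  have hp1 : Filter.Tendsto (fun x : ℕ => (x : ℝ) ^ κ) Filter.atTop Filter.atTop := (tendsto_rpow_atTop hκ).comp hcast
  have hp2 : Filter.Tendsto (fun x : ℕ => (x : ℝ) ^ (5 * κ / 12)) Filter.atTop Filter.atTop :=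
    (tendsto_rpow_atTop (by positivity)).comp hcast
  have hev := (hcast.eventually_ge_atTop x₁).and ((hcast.eventually_ge_atTop 2).and
    ((hcast.eventually_ge_atTop Ng).and ((hcast.eventually_ge_atTop Nφ).and
    ((hp1.eventually_ge_atTop Cg).and ((hp1.eventually_ge_atTop Cφ).and (hp2.eventually_ge_atTop (2 + 4 * C)))))))
  obtain ⟨x₀, hx₀⟩ := Filter.eventually_atTop.1 hev
  refine ⟨κ, x₀, hκ, ?_⟩
  intro x hx T hT hTx
  obtain ⟨hx1, hx2, hxg, hxφ, hxCg, hxCφ, hxC⟩ := hx₀ x hx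
  have hx1' : (1 : ℝ) ≤ (x : ℝ) := by linarith
  have hx0 : (0 : ℝ) < (x : ℝ) := by linarith
  have hxx : (x : ℝ) ≤ (x : ℝ) ^ 2 := by nlinarith
  have hx22 : (1 : ℝ) ≤ (x : ℝ) ^ 2 := by nlinarith
  have hT43 : T ≤ (x : ℝ) ^ (4 / 3 : ℝ) :=
    hTx.trans (Real.rpow_le_rpow_of_exponent_le hx1' (by linarith))
  have hTx2 : T ≤ (x : ℝ) ^ 2 := by
    refine hT43.trans ?_
    rw [← Real.rpow_natCast (x : ℝ) 2]
    exact Real.rpow_le_rpow_of_exponent_le hx1' (by norm_num)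
  have hTx8 : T ≤ ((x : ℝ) ^ 2) ^ 4 := by
    refine hTx2.trans ?_
    exact le_self_pow₀ hx22 (by norm_num)
  have hTx4 : 2 * T ≤ (x : ℝ) ^ 4 := by
    have h1 : (x : ℝ) ^ 4 = (x : ℝ) ^ 2 * (x : ℝ) ^ 2 := by ring
    rw [h1]
    have h2 : (2 : ℝ) ≤ (x : ℝ) ^ 2 := by nlinarith
    nlinarith
  have hT0 : 0 < T := by linarith
  have hsq : ∀ r : ℝ, ((x : ℝ) ^ 2) ^ r = (x : ℝ) ^ (2 * r) := by
    intro r
    rw [← Real.rpow_natCast (x : ℝ) 2, ← Real.rpow_mul hx0.le]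
    norm_num
  refine hL x T hx1 hT hTx (fun t => ‖DL g ((x : ℝ) ^ 2) t‖) (fun t => ‖DL φ x (2 * t)‖)
    (hgc _ (by positivity)).norm ((hφc _ hx0).comp (continuous_const.mul continuous_id)).norm
    (fun t => norm_nonneg _) (fun t => norm_nonneg _) ?_ ?_ ?_
  · intro t _
    constructor
    · refine (hgb _ t hx22).trans ?_
      rw [Real.rpow_add hx0, mul_comm Cg]
      refine mul_le_mul (le_of_eq ?_) hxCg hCg.le (Real.rpow_nonneg hx0.le _)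
      rw [← Real.rpow_natCast (x : ℝ) 2]
      norm_num
    · refine (hφb _ (2 * t) hx1').trans ?_
      rw [Real.rpow_add hx0, mul_comm Cφ, Real.rpow_one]
      exact mul_le_mul_of_nonneg_left hxCφ hx0.le
  · intro a ha ha'
    obtain ⟨S, hS1, hS2, hS3⟩ := FAR_set g δ' hδ0 Ng hNg (κ / 4) C hC hM ((x : ℝ) ^ 2) T a (hxg.trans hxx) hx22 hT
      hTx8 ha ha'
    refine ⟨S, hS1, hS2.trans (ENNReal.ofReal_le_ofReal ?_), ?_⟩
    · refine FAR_arith (x : ℝ) κ C (((x : ℝ) ^ 2) ^ δ') T T a hx1' hκ hκ2 hC (by positivity) ?_ hT hT43 hT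
        (by linarith) ha ha' hxC
      rw [hsq]
      exact Real.rpow_le_rpow_of_exponent_le hx1' (by linarith)
    · intro t ht htS
      refine (hS3 t ht htS).trans ?_
      rw [hsq]
      exact Real.rpow_le_rpow_of_exponent_le hx1' (by linarith)
  · intro a ha ha'
    obtain ⟨S, hS1, hS2, hS3⟩ := FAR_set φ δ' hδ0 Nφ hNφ (κ / 4) C hC hM (x : ℝ) (2 * T) a hxφ hx1' (by linarith)
      hTx4 ha ha'
    refine ⟨(fun t => 2 * t) ⁻¹' S, measurableSet_preimage (measurable_const_mul 2) hS1, ?_, ?_⟩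
    · rw [Real.volume_preimage_mul_left (by norm_num : (2 : ℝ) ≠ 0) S]
      have h1 : ENNReal.ofReal |(2 : ℝ)⁻¹| ≤ 1 := by
        rw [ENNReal.ofReal_le_one]
        norm_num
      calc ENNReal.ofReal |(2 : ℝ)⁻¹| * volume S ≤ 1 * volume S := mul_le_mul_left h1 _
        _ = volume S := one_mul _
        _ ≤ _ := hS2
        _ ≤ _ := ENNReal.ofReal_le_ofReal ?_
      refine FAR_arith (x : ℝ) κ C ((x : ℝ) ^ δ') T (2 * T) a hx1' hκ hκ2 hC (by positivity) ?_ hT hT43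
        (by linarith) le_rfl ha ha' hxC
      exact Real.rpow_le_rpow_of_exponent_le hx1' (by linarith)
    · intro t ht htS
      refine (hS3 (2 * t) ⟨by linarith [ht.1], by linarith [ht.2]⟩ htS).trans ?_
      exact Real.rpow_le_rpow_of_exponent_le hx1' (by linarith)

end Pool.Agent.SCT
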