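import Pool.Agent.helper94.SCT.Spec

set_option autoImplicit false

namespace Pool.Agent.SCT

open Finset ArithmeticFunction MeasureTheory
open Pool.Agent.CH (nit eU)
open Pool.Agent.helper78.ED (wg SS)
open Pool.Agent.helper85.BVP (beta)

private noncomputable def SEP_w (X t : ℝ) (m k : ℕ) (v : ℝ) : ℂ :=
  Complex.exp (((v * Real.log X : ℝ) : ℂ) * Complex.I) * (nu (t + v) m * nu (t + v) k)

private theorem SEP_w_norm (X t : ℝ) (m k : ℕ) (v : ℝ) : ‖SEP_w X t m k v‖ = 1 := by
  unfold SEP_w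
  rw [norm_mul, norm_mul, Complex.norm_exp_ofReal_mul_I, nu_norm, nu_norm]
  norm_num

private theorem SEP_w_cont (X t : ℝ) (m k : ℕ) : Continuous (SEP_w X t m k) := by
  unfold SEP_w
  have h1 : Continuous fun v : ℝ => nu (t + v) m := (nu_cont m).comp (continuous_const.add continuous_id)
  have h2 : Continuous fun v : ℝ => nu (t + v) k := (nu_cont k).comp (continuous_const.add continuous_id)
  have h3 : Continuous fun v : ℝ => Complex.exp (((v * Real.log X : ℝ) : ℂ) * Complex.I) := by fun_prop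
  exact h3.mul (h1.mul h2)

private theorem SEP_w_eq (X t : ℝ) (hX : 0 < X) (m k : ℕ) (hm : m ≠ 0) (hk : k ≠ 0) (v : ℝ) :
    Complex.exp (-((v : ℂ) * Complex.I) * ((Real.log (((m * k : ℕ) : ℝ) / X) : ℝ) : ℂ)) * nu t (m * k) =
      SEP_w X t m k v := by
  unfold SEP_w
  rw [← nu_mul (t + v) hm hk]
  unfold nu nit
  have h1 : (((m * k : ℕ) : ℝ)) ≠ 0 := by
    have : m * k ≠ 0 := Nat.mul_ne_zero hm hk
    exact_mod_cast this
  rw [Real.log_div h1 hX.ne', ← Complex.exp_add, ← Complex.exp_add]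
  congr 1
  push_cast
  ring

theorem SEP (hINV : INV_stmt) : SEP_stmt := by
  intro g hg X M K a b t hX hM hK
  obtain ⟨hI, hinv⟩ := hINV g hg 0 (by norm_num)
  simp only [Complex.ofReal_zero, zero_add] at hI hinv
  set H : ℝ → ℂ := fun v => Mt g ((v : ℂ) * Complex.I) with hH
  have hint : ∀ m k : ℕ, Integrable fun v : ℝ => H v * SEP_w X t m k v := by
    intro m k
    refine Integrable.mono' hI.norm (hI.aestronglyMeasurable.mul (SEP_w_cont X t m k).aestronglyMeasurable) ?_
    refine Filter.Eventually.of_forall fun v => ?_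
    rw [norm_mul, SEP_w_norm, mul_one]
  have hpt : ∀ m k : ℕ, m ≠ 0 → k ≠ 0 →
      ((g (Real.log (((m * k : ℕ) : ℝ) / X)) : ℝ) : ℂ) * nu t (m * k) =
        1 / (2 * (Real.pi : ℂ)) * ∫ v : ℝ, H v * SEP_w X t m k v := by
    intro m k hm hk
    rw [hinv (Real.log (((m * k : ℕ) : ℝ) / X)), mul_assoc, ← integral_mul_const]
    congr 1
    refine integral_congr_ae (Filter.Eventually.of_forall fun v => ?_)
    simp only
    rw [mul_assoc, SEP_w_eq X t hX m k hm hk v]
  have hB : B2 g X M K a b t = 1 / (2 * (Real.pi : ℂ)) * ∫ v : ℝ, H v *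
      (Complex.exp (((v * Real.log X : ℝ) : ℂ) * Complex.I) * (Bk M a (t + v) * Bk K b (t + v))) := by
    have e1 : B2 g X M K a b t = ∑ m ∈ Ico M (2 * M), ∑ k ∈ Ico K (2 * K),
        1 / (2 * (Real.pi : ℂ)) * ∫ v : ℝ, (a m * b k) * (H v * SEP_w X t m k v) := by
      unfold B2
      refine sum_congr rfl fun m hm => sum_congr rfl fun k hk => ?_
      have hm0 : m ≠ 0 := by have := (mem_Ico.1 hm).1; omega
      have hk0 : k ≠ 0 := by have := (mem_Ico.1 hk).1; omega
      rw [mul_assoc (a m * b k), hpt m k hm0 hk0, integral_const_mul]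
      ring
    rw [e1]
    simp only [← mul_sum]
    congr 1
    have e2 : ∀ m ∈ Ico M (2 * M), ∑ k ∈ Ico K (2 * K), ∫ v : ℝ, (a m * b k) * (H v * SEP_w X t m k v) =
        ∫ v : ℝ, ∑ k ∈ Ico K (2 * K), (a m * b k) * (H v * SEP_w X t m k v) := by
      intro m _
      exact (integral_finsetSum _ fun k _ => (hint m k).const_mul _).symm
    rw [sum_congr rfl e2, ← integral_finsetSum _ fun m _ => integrable_finsetSum _ fun k _ => (hint m k).const_mul _]
    refine integral_congr_ae (Filter.Eventually.of_forall fun v => ?_)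
    simp only
    unfold Bk SEP_w
    rw [sum_mul_sum, mul_sum, mul_sum]
    refine sum_congr rfl fun m _ => ?_
    rw [mul_sum, mul_sum]
    refine sum_congr rfl fun k _ => ?_
    ring
  rw [hB, norm_mul]
  have hpi : ‖(1 : ℂ) / (2 * (Real.pi : ℂ))‖ ≤ 1 := by
    rw [norm_div, norm_one, norm_mul, Complex.norm_ofNat, Complex.norm_real, Real.norm_eq_abs, abs_of_pos Real.pi_pos]
    have := Real.pi_gt_three
    rw [div_le_one (by linarith)]
    linarith
  have hle : ‖∫ v : ℝ, H v * (Complex.exp (((v * Real.log X : ℝ) : ℂ) * Complex.I) *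
      (Bk M a (t + v) * Bk K b (t + v)))‖ ≤
      ∫ v : ℝ, ‖Mt g ((v : ℂ) * Complex.I)‖ * (‖Bk M a (t + v)‖ * ‖Bk K b (t + v)‖) := by
    refine (norm_integral_le_integral_norm _).trans (le_of_eq ?_)
    refine integral_congr_ae (Filter.Eventually.of_forall fun v => ?_)
    simp only [norm_mul]
    rw [Complex.norm_exp_ofReal_mul_I, one_mul]
  calc ‖(1 : ℂ) / (2 * (Real.pi : ℂ))‖ * ‖∫ v : ℝ, H v * (Complex.exp (((v * Real.log X : ℝ) : ℂ) * Complex.I) *
      (Bk M a (t + v) * Bk K b (t + v)))‖ ≤ 1 * ‖∫ v : ℝ, H v * (Complex.exp (((v * Real.log X : ℝ) : ℂ) * Complex.I) *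
      (Bk M a (t + v) * Bk K b (t + v)))‖ := mul_le_mul_of_nonneg_right hpi (norm_nonneg _)
    _ ≤ _ := by rw [one_mul]; exact hle

end Pool.Agent.SCT
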